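import Pool.Agent.H662.D7

/-!
# MP_65f174_lc, question Q2: the answer is positive, for every standard fragment

For `n ≥ 1` the standard fragment with `n` blocks consists of the prenex sentences with `n`
alternating blocks of quantifiers (each binding finitely many variables of every sort, possibly
none), the last one existential, in front of a quantifier-free formula.

If `K`, `L` are henselian valued fields of equal characteristic zero, `Th_n(Kv) ⊆ Th_n(Lw)` and
`Th_n(vK) ⊆ Th_n(wL)`, then `Th_n(K, v) ⊆ Th_n(L, w)` in the three-sorted language.

The languages and the structures are defined in `Pool.Agent.H662.C1` and `Pool.Agent.H662.D1`,
the residue map and the sentences in `Pool.Agent.H662.D7`. The value group is the unit group of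
`O.ValueGroup`, an ordered abelian group in multiplicative notation; in the interpretation of the
language of ordered abelian groups the order is reversed. The zero of `O.ValueGroup` is `∞`.

The proof: (1) a map of leading terms which is compatible with the given maps of the residue field
and of the value group extends to an embedding of valued fields into a sufficiently saturated
henselian valued field of residue characteristic zero (`A1`-`A5`, `B1`-`B3`); (2) if the formulas
with `n + 1` blocks (the first one existential) are reflected by a map into a countable structure,
then the target maps back into an ultrapower of the source, preserving the formulas with `n` blocks,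
the first one universal (`C2`); (3) by (1), (2) and induction on `n`, an embedding of henselian
valued fields of equal characteristic zero reflects the formulas with `n` blocks as soon as the
embeddings of the residue fields and of the value groups do (`D5`); (4) (1), (2) and (3) give the
theorem (`D6`).
-/

set_option autoImplicit false

namespace Pool.Agent.Results.MP_65f174_lc.FragmentTransfer

open Pool.Agent.H662.A IsLocalRing

/-- **Question Q2, positive answer for all standard fragments.** -/
theorem result (n : ℕ) (hn : 1 ≤ n) (K L : Type) [Field K] [Field L]
    (O : ValuationSubring K) (P : ValuationSubring L) [HenselianLocalRing O]
    [HenselianLocalRing P] [CharZero (ResidueField O)] [CharZero (ResidueField P)]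
    (hres : ∀ φ : Sentence ringLg n,
      Models (ringStr (ResidueField O)) n φ → Models (ringStr (ResidueField P)) n φ)
    (hval : ∀ φ : Sentence oagLg n,
      Models (oagStr (O.ValueGroup)ˣ) n φ → Models (oagStr (P.ValueGroup)ˣ) n φ) :
    ∀ φ : Sentence valLg n, Models (valStr O.valuation (resMap O)) n φ →
      Models (valStr P.valuation (resMap P)) n φ :=
  transfer_all n hn K L O P hres hval

end Pool.Agent.Results.MP_65f174_lc.FragmentTransfer
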